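import Pool.Agent.Helper840.AE.Assembly3
import Pool.Agent.Helper840.AE.Sanity

/-!
Let `𝔤` be the affine Kac-Moody algebra of type `A_1^{(1)}`, let `ℓ = 3` and `p = 23`, so that
`p > 2ℓ² + ℓ - 3 = 18`. Over every field of characteristic `23` there is a non-split extension of
the Weyl module `V(2 ω_0 + ω_1)` by the Weyl module `V(3 ω_1)` in the category of integrable
weight modules of level `3` over the hyperalgebra.
-/

set_option autoImplicit false

universe u

namespace Pool.Agent.Results.MP_b2f51a_al.NonSplit

open Pool.Agent.Helper840.AE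

/-- Sanity check: the module `LC lam`, the quotient of the Verma module by the sum of all proper
submodules, is simple, and its highest weight vector is nonzero. -/
theorem simple_check (lam : Fin 2 → ℕ) : IsSimpleModule UA (LC lam) ∧ vlam lam ≠ 0 :=
  ⟨lc_simple lam, vlam_ne_zero lam⟩

/-- Sanity check: both Weyl modules of the theorem are integrable weight modules of level `3`. -/
theorem category_check (F : Type u) [Field F] :
    (Integrable (weylRep F (weight 3 1)) ∧ IsWeightModule 3 (weylRep F (weight 3 1))) ∧
    (Integrable (weylRep F (weight 3 3)) ∧ IsWeightModule 3 (weylRep F (weight 3 3))) :=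
  ⟨weyl_lam F, weyl_mu F⟩

/-- Over every field of characteristic `23` the group `Ext¹(V(2 ω_0 + ω_1), V(3 ω_1))` in the
category of integrable weight modules of level `3` is nonzero: there is a non-split short exact
sequence `0 → V(3 ω_1) → E → V(2 ω_0 + ω_1) → 0` in this category. Hence it is not true that for
all levels `ℓ > 0` and all algebraically closed fields of characteristic `p > 2` with
`p > 2ℓ² + ℓ - 3` all these extension groups between Weyl modules of level `ℓ` vanish. -/
theorem result :
    (∀ (F : Type u) [Field F] [CharP F 23], ¬ ExtZero F 3 (weight 3 1) (weight 3 3)) ∧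
    ¬ (∀ ℓ : ℕ, 0 < ℓ → ∀ (F : Type) [Field F] [IsAlgClosed F] (p : ℕ) [CharP F p],
      2 < p → 2 * ℓ ^ 2 + ℓ - 3 < p → ∀ n m : ℕ, n ≤ ℓ → m ≤ ℓ →
        ExtZero F ℓ (weight ℓ n) (weight ℓ m)) := by
  refine ⟨fun F _ _ => not_extZero F, fun H => ?_⟩
  have : Fact (Nat.Prime 23) := ⟨by norm_num⟩
  have : CharP (AlgebraicClosure (ZMod 23)) 23 := inferInstance
  exact not_extZero (AlgebraicClosure (ZMod 23))
    (H 3 (by norm_num) (AlgebraicClosure (ZMod 23)) 23 (by norm_num) (by norm_num) 1 3
      (by norm_num) le_rfl)

end Pool.Agent.Results.MP_b2f51a_al.NonSplit
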